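import Mathlib

/-!
# Homomorphism threshold and blowup threshold

Definitions for problem MP_dfc8ea_co.  Everything is for finite simple graphs.
`A.Free B` is Mathlib's predicate saying that `B` has no (not necessarily induced)
subgraph isomorphic to `A`.
-/

open scoped Classical

namespace Pool.Agent.Helper93Blowup

/-- `G` is maximal `H`-free: `G` is `H`-free, and adding any edge between two distinct
non-adjacent vertices of `G` creates a copy of `H`. -/
def IsMaximalFree {W V : Type} (H : SimpleGraph W) (G : SimpleGraph V) : Prop :=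
  H.Free G ∧ ∀ u v : V, u ≠ v → ¬ G.Adj u v → ¬ H.Free (G ⊔ SimpleGraph.edge u v)

/-- `G` is a blowup of `F`: the vertex set of `G` is partitioned into nonempty classes
indexed by the vertices of `F` (the fibres of a surjection `φ`), and `u v` is an edge of `G`
exactly when `φ u` and `φ v` are adjacent in `F` (so that each class is independent). -/
def IsBlowup {V U : Type} (G : SimpleGraph V) (F : SimpleGraph U) : Prop :=
  ∃ φ : V → U, Function.Surjective φ ∧ ∀ u v : V, G.Adj u v ↔ F.Adj (φ u) (φ v)

/-- `δ(G) ≥ α |G|`, where `δ(G)` is the minimum degree and `|G|` the number of vertices. -/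
def MinDegreeGE {V : Type} [Fintype V] (G : SimpleGraph V) (α : ℝ) : Prop :=
  α * (Fintype.card V : ℝ) ≤ (G.minDegree : ℝ)

/-- The homomorphism threshold `δ_hom(H)`: the infimum of the `α ≥ 0` for which there is one
finite `H`-free graph `F` such that every finite `H`-free graph `G` with `δ(G) ≥ α |G|` has a
homomorphism to `F`. -/
noncomputable def homThreshold {W : Type} (H : SimpleGraph W) : ℝ :=
  sInf {α : ℝ | 0 ≤ α ∧ ∃ (U : Type) (_ : Fintype U) (F : SimpleGraph U), H.Free F ∧
    ∀ (V : Type) [Fintype V] (G : SimpleGraph V), H.Free G → MinDegreeGE G α →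
      Nonempty (G →g F)}

/-- The blowup threshold `δ_B(H)`: the infimum of the `α ≥ 0` for which there is a constant
`C` such that every finite maximal `H`-free graph `G` with `δ(G) ≥ α |G|` is a blowup of some
graph `F` with `|F| ≤ C`. -/
noncomputable def blowupThreshold {W : Type} (H : SimpleGraph W) : ℝ :=
  sInf {α : ℝ | 0 ≤ α ∧ ∃ C : ℕ, ∀ (V : Type) [Fintype V] (G : SimpleGraph V),
    IsMaximalFree H G → MinDegreeGE G α →
      ∃ (U : Type) (_ : Fintype U) (F : SimpleGraph U), Fintype.card U ≤ C ∧ IsBlowup G F}

/-- The wheel with four spokes, `W₄ = K_{1,2,2}`: a hub `0` joined to all vertices of the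
4-cycle `1 2 3 4`. -/
def wheelFour : SimpleGraph (Fin 5) :=
  SimpleGraph.fromEdgeSet {s(0, 1), s(0, 2), s(0, 3), s(0, 4), s(1, 2), s(2, 3), s(3, 4), s(4, 1)}

end Pool.Agent.Helper93Blowup
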