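import Pool.Agent.Helper93_Blowup.Defs

open scoped Classical
open Finset

namespace Pool.Agent.Helper93Blowup

/-! ### Recognising copies of the wheel -/

lemma wheel_adj_01 : wheelFour.Adj 0 1 := by simp [wheelFour]
lemma wheel_adj_02 : wheelFour.Adj 0 2 := by simp [wheelFour]
lemma wheel_adj_03 : wheelFour.Adj 0 3 := by simp [wheelFour]
lemma wheel_adj_04 : wheelFour.Adj 0 4 := by simp [wheelFour]
lemma wheel_adj_12 : wheelFour.Adj 1 2 := by simp [wheelFour]
lemma wheel_adj_23 : wheelFour.Adj 2 3 := by simp [wheelFour]
lemma wheel_adj_34 : wheelFour.Adj 3 4 := by simp [wheelFour]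
lemma wheel_adj_41 : wheelFour.Adj 4 1 := by simp [wheelFour]

/-- A hub `v` adjacent to `a, b, c, d` with `a c`, `c b`, `b d`, `d a` edges and
`a ≠ b`, `c ≠ d` gives a wheel. -/
lemma contains_wheel {V : Type} {G : SimpleGraph V} {v a b c d : V}
    (hva : G.Adj v a) (hvb : G.Adj v b) (hvc : G.Adj v c) (hvd : G.Adj v d)
    (hac : G.Adj a c) (hcb : G.Adj c b) (hbd : G.Adj b d) (hda : G.Adj d a)
    (hab : a ≠ b) (hcd : c ≠ d) : wheelFour.IsContained G := by
  have h1 := hva.ne
  have h2 := hvb.ne
  have h3 := hvc.ne
  have h4 := hvd.ne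
  have h5 := hac.ne
  have h6 := hcb.ne
  have h7 := hbd.ne
  have h8 := hda.ne
  refine ⟨⟨⟨![v, a, c, b, d], ?_⟩, ?_⟩⟩
  · intro x y hxy
    simp only [wheelFour, SimpleGraph.fromEdgeSet_adj, Set.mem_insert_iff, Sym2.eq_iff,
      Set.mem_singleton_iff] at hxy
    obtain ⟨h, -⟩ := hxy
    rcases h with h | h | h | h | h | h | h | h <;> rcases h with ⟨rfl, rfl⟩ | ⟨rfl, rfl⟩ <;>
      simp <;> first | assumption | (apply SimpleGraph.Adj.symm; assumption)
  · intro x y hxy
    fin_cases x <;> fin_cases y <;> simp_all

/-- Edges seen by a copy of the wheel. -/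
lemma wheel_copy {V : Type} {G : SimpleGraph V} (h : wheelFour.IsContained G) :
    ∃ v a b c d : V, G.Adj v a ∧ G.Adj v b ∧ G.Adj v c ∧ G.Adj v d ∧
      G.Adj a c ∧ G.Adj c b ∧ G.Adj b d ∧ G.Adj d a ∧ a ≠ b ∧ c ≠ d := by
  obtain ⟨f⟩ := h
  refine ⟨f 0, f 1, f 3, f 2, f 4, f.toHom.map_adj wheel_adj_01, f.toHom.map_adj wheel_adj_03,
    f.toHom.map_adj wheel_adj_02, f.toHom.map_adj wheel_adj_04, f.toHom.map_adj wheel_adj_12,
    f.toHom.map_adj wheel_adj_23, f.toHom.map_adj wheel_adj_34, f.toHom.map_adj wheel_adj_41,
    ?_, ?_⟩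
  · intro h
    have := f.injective h
    exact absurd this (by decide)
  · intro h
    have := f.injective h
    exact absurd this (by decide)

/-! ### The lower bound on the blowup threshold -/

/-- Complete bipartite graph between `Fin N × Bool` and `Fin N × Bool`, plus the perfect
matching `(i, false) (i, true)` in the left part. -/
def matchBip (N : ℕ) : SimpleGraph ((Fin N × Bool) ⊕ (Fin N × Bool)) where
  Adj x y := match x, y with
    | Sum.inl a, Sum.inl b => a.1 = b.1 ∧ a.2 ≠ b.2
    | Sum.inl _, Sum.inr _ => True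
    | Sum.inr _, Sum.inl _ => True
    | Sum.inr _, Sum.inr _ => False
  symm := by
    constructor
    intro x y h
    rcases x with x | x <;> rcases y with y | y <;> simp_all
    exact fun hh => h.2 hh.symm
  loopless := by
    constructor
    intro x h
    rcases x with x | x <;> simp_all

lemma matchBip_left_unique {N : ℕ} {x y z : Fin N × Bool}
    (h1 : (matchBip N).Adj (Sum.inl x) (Sum.inl y))
    (h2 : (matchBip N).Adj (Sum.inl x) (Sum.inl z)) : y = z := by
  obtain ⟨x1, x2⟩ := x
  obtain ⟨y1, y2⟩ := y
  obtain ⟨z1, z2⟩ := z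
  simp only [matchBip] at h1 h2
  obtain ⟨h1a, h1b⟩ := h1
  obtain ⟨h2a, h2b⟩ := h2
  subst h1a
  subst h2a
  cases x2 <;> cases y2 <;> cases z2 <;> simp_all

lemma matchBip_right {N : ℕ} {x y : Fin N × Bool}
    (h : (matchBip N).Adj (Sum.inr x) (Sum.inr y)) : False := by
  simp [matchBip] at h

lemma matchBip_free (N : ℕ) : wheelFour.Free (matchBip N) := by
  intro h
  obtain ⟨v, a, b, c, d, hva, hvb, hvc, hvd, hac, hcb, hbd, hda, hab, hcd⟩ := wheel_copy h
  rcases v with v | v
  · rcases a with a | a
    · rcases b with b | b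
      · exact hab (congrArg _ (matchBip_left_unique hva hvb))
      · rcases c with c | c
        · rcases d with d | d
          · exact hcd (congrArg _ (matchBip_left_unique hvc hvd))
          · exact matchBip_right hbd
        · exact matchBip_right hcb
    · rcases c with c | c
      · rcases d with d | d
        · exact hcd (congrArg _ (matchBip_left_unique hvc hvd))
        · exact matchBip_right hda
      · exact matchBip_right hac
  · rcases a with a | a
    · rcases c with c | c
      · rcases d with d | d
        · exact hcd (congrArg _ (matchBip_left_unique hac hda.symm))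
        · exact matchBip_right hvd
      · exact matchBip_right hvc
    · exact matchBip_right hva

/-- Every `H`-free graph on a finite vertex type is contained in a maximal one. -/
lemma exists_maximal_free {W V : Type} [Finite V] (H : SimpleGraph W) (G : SimpleGraph V)
    (hG : H.Free G) : ∃ G' : SimpleGraph V, G ≤ G' ∧ IsMaximalFree H G' := by
  obtain ⟨G', hle, hmax⟩ := (Set.toFinite {G' : SimpleGraph V | H.Free G'}).exists_le_maximal hG
  refine ⟨G', hle, hmax.prop, ?_⟩
  intro u v huv hnadj hfree
  have h1 : G' ⊔ SimpleGraph.edge u v ≤ G' := hmax.le_of_ge hfree le_sup_left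
  apply hnadj
  apply h1
  simp [SimpleGraph.edge_adj, huv]

lemma half_le_blowupThreshold : (1 / 2 : ℝ) ≤ blowupThreshold wheelFour := by
  unfold blowupThreshold
  apply le_csInf
  · refine ⟨2, by norm_num, 0, ?_⟩
    intro V _ G _ hdeg
    by_cases hV : Nonempty V
    · exfalso
      unfold MinDegreeGE at hdeg
      obtain ⟨v⟩ := hV
      have h1 : G.minDegree ≤ G.degree v := G.minDegree_le_degree v
      have h2 : G.degree v < Fintype.card V := G.degree_lt_card_verts v
      have h3 : (G.minDegree : ℝ) < Fintype.card V := by exact_mod_cast h1.trans_lt h2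
      have h4 : (0 : ℝ) ≤ Fintype.card V := by positivity
      linarith
    · have : IsEmpty V := not_nonempty_iff.mp hV
      refine ⟨V, inferInstance, G, ?_, id, fun x => ⟨x, rfl⟩, fun _ _ => Iff.rfl⟩
      simp
  · rintro α ⟨hα0, C, hC⟩
    by_contra hlt
    push Not at hlt
    set N := C * C + 1 with hN
    obtain ⟨G', hle, hmax⟩ := exists_maximal_free wheelFour (matchBip N) (matchBip_free N)
    have hdeg : MinDegreeGE G' α := by
      unfold MinDegreeGE
      have h1 : 2 * N ≤ G'.minDegree := by
        haveI : Nonempty ((Fin N × Bool) ⊕ (Fin N × Bool)) := ⟨Sum.inl (0, false)⟩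
        apply SimpleGraph.le_minDegree_of_forall_le_degree
        intro v
        have key : ∀ (g : Fin N × Bool → (Fin N × Bool) ⊕ (Fin N × Bool)),
            Function.Injective g → (∀ x, G'.Adj v (g x)) → 2 * N ≤ G'.degree v := by
          intro g hg hadj
          rw [← SimpleGraph.card_neighborFinset_eq_degree]
          calc 2 * N = Fintype.card (Fin N × Bool) := by simp [mul_comm]
            _ = (Finset.univ.image g).card := by
                rw [Finset.card_image_of_injective _ hg, Finset.card_univ]
            _ ≤ _ := by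
                apply Finset.card_le_card
                intro y hy
                simp only [Finset.mem_image, Finset.mem_univ, true_and] at hy
                obtain ⟨x, rfl⟩ := hy
                simpa using hadj x
        rcases v with v | v
        · exact key Sum.inr Sum.inr_injective (fun x => hle (by simp [matchBip]))
        · exact key Sum.inl Sum.inl_injective (fun x => hle (by simp [matchBip]))
      have h2 : (Fintype.card ((Fin N × Bool) ⊕ (Fin N × Bool)) : ℝ) = 4 * N := by
        simp; ring
      rw [h2]
      have h3 : (2 * N : ℝ) ≤ G'.minDegree := by exact_mod_cast h1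
      have h4 : (0 : ℝ) ≤ N := by positivity
      nlinarith
    obtain ⟨U, _, F, hcard, φ, -, hφ⟩ := hC _ G' hmax hdeg
    obtain ⟨i, j, hij, heq⟩ := Fintype.exists_ne_map_eq_of_card_lt
      (fun i : Fin N => (φ (Sum.inl (i, false)), φ (Sum.inl (i, true)))) (by
        simp only [Fintype.card_prod, Fintype.card_fin]
        have := Nat.mul_le_mul hcard hcard
        omega)
    simp only [Prod.mk.injEq] at heq
    obtain ⟨h1, h2⟩ := heq
    have hi : G'.Adj (Sum.inl (i, false)) (Sum.inl (i, true)) := hle (by simp [matchBip])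
    have hj : G'.Adj (Sum.inl (j, false)) (Sum.inl (j, true)) := hle (by simp [matchBip])
    have hij1 : G'.Adj (Sum.inl (i, false)) (Sum.inl (j, true)) := by
      rw [hφ, ← h2, ← hφ]; exact hi
    have hij2 : G'.Adj (Sum.inl (j, false)) (Sum.inl (i, true)) := by
      rw [hφ, ← h1, ← hφ]; exact hi
    have hR : ∀ x : Fin N × Bool, G'.Adj (Sum.inr (i, false)) (Sum.inl x) :=
      fun x => hle (by simp [matchBip])
    refine hmax.1 (contains_wheel (hR (i, false)) (hR (j, false)) (hR (i, true)) (hR (j, true))
      hi hij2.symm hj hij1.symm ?_ ?_)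
    · simpa using hij
    · simpa using hij

end Pool.Agent.Helper93Blowup
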