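import Pool.Agent.Helper93_Blowup.Proof

open scoped Classical
open Finset

namespace Pool.Agent.Helper93Blowup

variable {V : Type} [Fintype V] {G : SimpleGraph V}

/-- In a `W₄`-free graph, two distinct neighbours `a, b` of `v` have at most one common
neighbour inside `N(v)`. -/
lemma card_triple_le (hG : wheelFour.Free G) {v a b : V} (hva : G.Adj v a) (hvb : G.Adj v b)
    (hab : a ≠ b) :
    ((G.neighborFinset v ∩ G.neighborFinset a) ∩
      (G.neighborFinset v ∩ G.neighborFinset b)).card ≤ 1 := by
  rw [Finset.card_le_one]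
  intro c hc d hd
  by_contra hcd
  simp only [Finset.mem_inter, SimpleGraph.mem_neighborFinset] at hc hd
  exact hG (contains_wheel hva hvb hc.1.1 hd.1.1 hc.1.2 hc.2.2.symm hd.2.2 hd.1.2.symm hab hcd)

/-- The set of `y` such that the edge `x y` is in at least `n/100` triangles. -/
noncomputable def heavy (G : SimpleGraph V) (x : V) : Finset V :=
  Finset.univ.filter (fun y => G.Adj x y ∧
    Fintype.card V ≤ 100 * (G.neighborFinset x ∩ G.neighborFinset y).card)

lemma heavy_aux (hG : wheelFour.Free G) (x : V) (S : Finset V) (hS : S ⊆ heavy G x) :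
    S.card * Fintype.card V ≤
      100 * ((S.biUnion (fun y => G.neighborFinset x ∩ G.neighborFinset y)).card + S.card ^ 2) := by
  induction S using Finset.induction_on with
  | empty => simp
  | insert y S hy ih =>
    have hS' : S ⊆ heavy G x := fun z hz => hS (Finset.mem_insert_of_mem hz)
    have ih' := ih hS'
    have hyh : y ∈ heavy G x := hS (Finset.mem_insert_self _ _)
    simp only [heavy, Finset.mem_filter, Finset.mem_univ, true_and] at hyh
    rw [Finset.biUnion_insert, Finset.card_insert_of_notMem hy]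
    set A := G.neighborFinset x ∩ G.neighborFinset y with hA
    set U := S.biUnion (fun y => G.neighborFinset x ∩ G.neighborFinset y) with hU
    have h1 : (A ∪ U).card + (A ∩ U).card = A.card + U.card := Finset.card_union_add_card_inter A U
    have h2 : (A ∩ U).card ≤ S.card := by
      rw [hU, Finset.inter_biUnion]
      calc _ ≤ ∑ z ∈ S, (A ∩ (G.neighborFinset x ∩ G.neighborFinset z)).card :=
            Finset.card_biUnion_le
        _ ≤ ∑ z ∈ S, 1 := by
            apply Finset.sum_le_sum
            intro z hz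
            have hzh := hS' hz
            simp only [heavy, Finset.mem_filter, Finset.mem_univ, true_and] at hzh
            exact card_triple_le hG hyh.1 hzh.1 (fun h => hy (h ▸ hz))
        _ = S.card := by simp
    have h3 := hyh.2
    nlinarith

lemma heavy_card (hG : wheelFour.Free G) (hn : 40001 ≤ Fintype.card V) (x : V) :
    (heavy G x).card < 200 := by
  by_contra h
  push Not at h
  obtain ⟨S, hS, hcard⟩ := Finset.exists_subset_card_eq h
  have h1 := heavy_aux hG x S hS
  rw [hcard] at h1
  have h2 := Finset.card_le_univ (S.biUnion (fun y => G.neighborFinset x ∩ G.neighborFinset y))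
  omega

/-- A graph in which every vertex has at most one neighbour in its own class, for a
two-class partition, is `4`-colourable. -/
lemma colorable_of_matchings (P : V → Prop)
    (h : ∀ u v w, G.Adj u v → G.Adj u w → (P u ↔ P v) → (P u ↔ P w) → v = w) :
    G.Colorable 4 := by
  obtain ⟨e⟩ : Nonempty (V ≃ Fin (Fintype.card V)) := ⟨Fintype.equivFin V⟩
  let Q : V → Prop := fun v => ∃ w, G.Adj v w ∧ (P v ↔ P w) ∧ e w < e v
  have hcol : Nonempty (G.Coloring (Bool × Bool)) := by
    refine ⟨SimpleGraph.Coloring.mk (fun v => (decide (P v), decide (Q v))) ?_⟩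
    intro u v huv heq
    simp only [Prod.mk.injEq, decide_eq_decide] at heq
    obtain ⟨hP, hQ⟩ := heq
    have key : ∀ {u v : V}, G.Adj u v → (P u ↔ P v) → (Q u ↔ Q v) → e u < e v → False := by
      intro u v huv hP hQ hlt
      have hv : Q v := ⟨u, huv.symm, hP.symm, hlt⟩
      obtain ⟨w, huw, hPw, hw⟩ := hQ.mpr hv
      have := h u v w huv huw hP hPw
      subst this
      exact absurd (hlt.trans hw) (lt_irrefl _)
    rcases lt_trichotomy (e u) (e v) with hlt | heq | hlt
    · exact key huv hP hQ hlt
    · exact huv.ne (e.injective heq)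
    · exact key huv.symm hP.symm hQ.symm hlt
  obtain ⟨C⟩ := hcol
  have := C.colorable
  simpa using this

lemma card_three_inter {α : Type*} [DecidableEq α] (B X Y Z : Finset α) (hX : X ⊆ B) (hY : Y ⊆ B)
    (hZ : Z ⊆ B) : X.card + Y.card + Z.card ≤ (X ∩ Y ∩ Z).card + 2 * B.card := by
  have h1 := Finset.card_union_add_card_inter X Y
  have h2 := Finset.card_union_add_card_inter (X ∩ Y) Z
  have h3 : (X ∪ Y).card ≤ B.card := Finset.card_le_card (Finset.union_subset hX hY)
  have h4 : (X ∩ Y ∪ Z).card ≤ B.card :=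
    Finset.card_le_card (Finset.union_subset (Finset.inter_subset_left.trans hX) hZ)
  omega

lemma card_two_inter {α : Type*} [DecidableEq α] (B X Y : Finset α) (hX : X ⊆ B) (hY : Y ⊆ B) :
    X.card + Y.card ≤ (X ∩ Y).card + B.card := by
  have h1 := Finset.card_union_add_card_inter X Y
  have h3 : (X ∪ Y).card ≤ B.card := Finset.card_le_card (Finset.union_subset hX hY)
  omega

lemma exists_two_of_card {α : Type*} {s : Finset α} (h : 2 ≤ s.card) :
    ∃ a b, a ∈ s ∧ b ∈ s ∧ a ≠ b := by
  obtain ⟨a, ha, b, hb, hab⟩ := Finset.one_lt_card.mp h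
  exact ⟨a, b, ha, hb, hab⟩

/-- Key structural step: fix a light edge `x y`.  No vertex `v` has at least `8n/100`
neighbours in both `N(x)` and `N(y)`. -/
lemma no_mixed (hG : wheelFour.Free G) (hn : 40001 ≤ Fintype.card V)
    (hdeg : ∀ v, 49 * Fintype.card V ≤ 100 * (G.neighborFinset v).card) {x y : V}
    (hlight : 100 * (G.neighborFinset x ∩ G.neighborFinset y).card < Fintype.card V) (v : V)
    (hA : 8 * Fintype.card V ≤ 100 * (G.neighborFinset v ∩ G.neighborFinset y).card)
    (hB : 8 * Fintype.card V ≤ 100 * (G.neighborFinset v ∩ G.neighborFinset x).card) : False := by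
  set n := Fintype.card V with hn'
  set A := G.neighborFinset y with hAdef
  set B := G.neighborFinset x with hBdef
  -- two typical vertices of `B` adjacent to `v`
  have h1 : 2 ≤ ((G.neighborFinset v ∩ B) \ heavy G x).card := by
    have := Finset.le_card_sdiff (heavy G x) (G.neighborFinset v ∩ B)
    have h2 := heavy_card hG hn x
    omega
  obtain ⟨b1, b2, hb1, hb2, hb12⟩ := exists_two_of_card h1
  simp only [Finset.mem_sdiff, Finset.mem_inter, SimpleGraph.mem_neighborFinset, hBdef, heavy,
    Finset.mem_filter, Finset.mem_univ, true_and, not_and, not_le] at hb1 hb2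
  obtain ⟨⟨hvb1, hxb1⟩, hl1⟩ := hb1
  obtain ⟨⟨hvb2, hxb2⟩, hl2⟩ := hb2
  have hl1' := hl1 hxb1
  have hl2' := hl2 hxb2
  -- `|N(b_i) \ B| ≥ 48n/100`
  have houter : ∀ b, 100 * (B ∩ G.neighborFinset b).card < n →
      48 * n ≤ 100 * (G.neighborFinset b \ B).card := by
    intro b hb
    have e1 : (G.neighborFinset b \ B).card + (G.neighborFinset b ∩ B).card
        = (G.neighborFinset b).card := Finset.card_sdiff_add_card_inter _ _
    rw [Finset.inter_comm] at e1
    have e2 := hdeg b
    omega
  have ho1 := houter b1 hl1'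
  have ho2 := houter b2 hl2'
  -- the set `W = (N(v) ∩ A) \ B`
  set W := (G.neighborFinset v ∩ A) \ B with hW
  have hWcard : 7 * n ≤ 100 * W.card := by
    have e1 : W.card + ((G.neighborFinset v ∩ A) ∩ B).card = (G.neighborFinset v ∩ A).card :=
      Finset.card_sdiff_add_card_inter _ _
    have e2 : ((G.neighborFinset v ∩ A) ∩ B).card ≤ (B ∩ A).card := by
      apply Finset.card_le_card
      intro z hz
      simp only [Finset.mem_inter] at hz ⊢
      exact ⟨hz.2, hz.1.2⟩
    omega
  -- complement of `B`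
  have hBc : (Finset.univ \ B).card + B.card = n := by
    have := Finset.card_sdiff_add_card_inter (Finset.univ : Finset V) B
    rw [Finset.univ_inter] at this
    simpa [hn'] using this
  have hBcard := hdeg x
  rw [← hBdef] at hBcard
  have h3 := card_three_inter (Finset.univ \ B) W (G.neighborFinset b1 \ B)
    (G.neighborFinset b2 \ B) (by
      intro z hz; simp only [hW, Finset.mem_sdiff, Finset.mem_univ, true_and] at hz ⊢; exact hz.2)
    (by intro z hz; simp only [Finset.mem_sdiff, Finset.mem_univ, true_and] at hz ⊢; exact hz.2)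
    (by intro z hz; simp only [Finset.mem_sdiff, Finset.mem_univ, true_and] at hz ⊢; exact hz.2)
  have h4 : 2 ≤ (W ∩ (G.neighborFinset b1 \ B) ∩ (G.neighborFinset b2 \ B)).card := by omega
  obtain ⟨a1, a2, ha1, ha2, ha12⟩ := exists_two_of_card h4
  simp only [hW, Finset.mem_sdiff, Finset.mem_inter, SimpleGraph.mem_neighborFinset] at ha1 ha2
  obtain ⟨⟨⟨⟨hva1, -⟩, -⟩, hb1a1, -⟩, hb2a1, -⟩ := ha1
  obtain ⟨⟨⟨⟨hva2, -⟩, -⟩, hb1a2, -⟩, hb2a2, -⟩ := ha2
  exact hG (contains_wheel hva1 hva2 hvb1 hvb2 hb1a1.symm hb1a2 hb2a2.symm hb2a1 ha12 hb12)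

/-- If three vertices each have at least `38n/100` neighbours in `B = N(x)` and `|B| ≤ 52n/100`,
they have at least two common neighbours. -/
lemma common_two (hn : 40001 ≤ Fintype.card V) {B : Finset V}
    (hB : 100 * B.card ≤ 52 * Fintype.card V) {u v w : V}
    (hu : 38 * Fintype.card V ≤ 100 * (G.neighborFinset u ∩ B).card)
    (hv : 38 * Fintype.card V ≤ 100 * (G.neighborFinset v ∩ B).card)
    (hw : 38 * Fintype.card V ≤ 100 * (G.neighborFinset w ∩ B).card) :
    ∃ a b, a ≠ b ∧ G.Adj u a ∧ G.Adj v a ∧ G.Adj w a ∧ G.Adj u b ∧ G.Adj v b ∧ G.Adj w b := by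
  have h := card_three_inter B _ _ _ (Finset.inter_subset_right (s₁ := G.neighborFinset u))
    (Finset.inter_subset_right (s₁ := G.neighborFinset v))
    (Finset.inter_subset_right (s₁ := G.neighborFinset w))
  have h2 : 2 ≤ (G.neighborFinset u ∩ B ∩ (G.neighborFinset v ∩ B) ∩
    (G.neighborFinset w ∩ B)).card := by omega
  obtain ⟨a, b, ha, hb, hab⟩ := exists_two_of_card h2
  simp only [Finset.mem_inter, SimpleGraph.mem_neighborFinset] at ha hb
  exact ⟨a, b, hab, ha.1.1.1, ha.1.2.1, ha.2.1, hb.1.1.1, hb.1.2.1, hb.2.1⟩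

lemma four_colorable (hG : wheelFour.Free G) (hn : 40001 ≤ Fintype.card V)
    (hdeg : ∀ v, 49 * Fintype.card V ≤ 100 * (G.neighborFinset v).card) : G.Colorable 4 := by
  have hpos : 0 < Fintype.card V := by omega
  obtain ⟨x⟩ : Nonempty V := Fintype.card_pos_iff.mp hpos
  -- a light edge `x y`
  obtain ⟨y, hy⟩ : (G.neighborFinset x \ heavy G x).Nonempty := by
    rw [← Finset.card_pos]
    have := Finset.le_card_sdiff (heavy G x) (G.neighborFinset x)
    have h2 := heavy_card hG hn x
    have h3 := hdeg x
    omega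
  simp only [Finset.mem_sdiff, SimpleGraph.mem_neighborFinset, heavy, Finset.mem_filter,
    Finset.mem_univ, true_and, not_and, not_le] at hy
  obtain ⟨hxy, hl⟩ := hy
  have hlight := hl hxy
  set n := Fintype.card V with hn'
  set A := G.neighborFinset y with hAdef
  set B := G.neighborFinset x with hBdef
  have hAc := hdeg y
  have hBc := hdeg x
  rw [← hAdef] at hAc
  rw [← hBdef] at hBc
  have hunion : (A ∪ B).card + (A ∩ B).card = A.card + B.card :=
    Finset.card_union_add_card_inter A B
  have hcomm : (A ∩ B).card = (B ∩ A).card := by rw [Finset.inter_comm]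
  have hule : (A ∪ B).card ≤ n := Finset.card_le_univ _
  have hlight' : 100 * (A ∩ B).card < n := by rw [hcomm]; exact hlight
  -- a vertex with few neighbours in one of `A`, `B` has many in the other
  have hmany : ∀ v, ∀ S T : Finset V, S ∪ T = A ∪ B →
      100 * (G.neighborFinset v ∩ S).card < 8 * n →
      38 * n ≤ 100 * (G.neighborFinset v ∩ T).card := by
    intro v S T hST hS
    have e0 := hdeg v
    have e1 : (G.neighborFinset v ∩ (A ∪ B)).card ≤
        (G.neighborFinset v ∩ S).card + (G.neighborFinset v ∩ T).card := by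
      rw [← hST, Finset.inter_union_distrib_left]
      exact Finset.card_union_le _ _
    have e2 := card_two_inter (Finset.univ : Finset V) (G.neighborFinset v) (A ∪ B)
      (Finset.subset_univ _) (Finset.subset_univ _)
    have e3 : (Finset.univ : Finset V).card = n := rfl
    omega
  apply colorable_of_matchings (fun v => 100 * (G.neighborFinset v ∩ A).card < 8 * n)
  intro u v w huv huw hPv hPw
  by_contra hvw
  by_cases hu : 100 * (G.neighborFinset u ∩ A).card < 8 * n
  · have hv := hPv.mp hu
    have hw := hPw.mp hu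
    obtain ⟨a, b, hab, hua, hva, hwa, hub, hvb, hwb⟩ := common_two (G := G) hn (B := B)
      (by omega) (hmany u A B rfl hu) (hmany v A B rfl hv) (hmany w A B rfl hw)
    exact hG (contains_wheel huv huw hua hub hva hwa.symm hwb hvb.symm hvw hab)
  · have hv := fun h => hu (hPv.mpr h)
    have hw := fun h => hu (hPw.mpr h)
    have hB' : ∀ z, ¬ 100 * (G.neighborFinset z ∩ A).card < 8 * n →
        100 * (G.neighborFinset z ∩ B).card < 8 * n := by
      intro z hz
      by_contra hcon
      exact no_mixed hG hn hdeg hlight z (not_lt.mp hz) (not_lt.mp hcon)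
    obtain ⟨a, b, hab, hua, hva, hwa, hub, hvb, hwb⟩ := common_two (G := G) hn (B := A)
      (by omega) (hmany u B A (Finset.union_comm _ _) (hB' u hu))
      (hmany v B A (Finset.union_comm _ _) (hB' v hv))
      (hmany w B A (Finset.union_comm _ _) (hB' w hw))
    exact hG (contains_wheel huv huw hua hub hva hwa.symm hwb hvb.symm hvw hab)

/-! ### The target graph -/

/-- The index type of the disjoint union of all `W₄`-free graphs on `Fin n`, `n < 40001`. -/
abbrev BigV : Type :=
  Σ p : (Σ n : Fin 40001, {G : SimpleGraph (Fin n) // wheelFour.Free G}), Fin p.1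

/-- The disjoint union of all `W₄`-free graphs on `Fin n` with `n < 40001`. -/
def bigGraph : SimpleGraph BigV where
  Adj x y := ∃ h : x.1 = y.1, y.1.2.1.Adj (h ▸ x.2) y.2
  symm := by
    constructor
    rintro ⟨p, x⟩ ⟨q, y⟩ ⟨h, hadj⟩
    simp only at h
    subst h
    exact ⟨rfl, hadj.symm⟩
  loopless := by
    constructor
    rintro ⟨p, x⟩ ⟨h, hadj⟩
    exact hadj.ne rfl

lemma bigGraph_adj {p q} {x : Fin p.1} {y : Fin q.1} (h : bigGraph.Adj ⟨p, x⟩ ⟨q, y⟩) : p = q :=
  h.1

lemma bigGraph_adj_same {p} {x y : Fin p.1} (h : bigGraph.Adj ⟨p, x⟩ ⟨p, y⟩) :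
    p.2.1.Adj x y := h.2

lemma bigGraph_free : wheelFour.Free bigGraph := by
  intro h
  obtain ⟨⟨p, v⟩, ⟨p1, a⟩, ⟨p2, b⟩, ⟨p3, c⟩, ⟨p4, d⟩, hva, hvb, hvc, hvd, hac, hcb, hbd, hda, hab,
    hcd⟩ := wheel_copy h
  obtain rfl := bigGraph_adj hva
  obtain rfl := bigGraph_adj hvb
  obtain rfl := bigGraph_adj hvc
  obtain rfl := bigGraph_adj hvd
  refine p.2.2 (contains_wheel (bigGraph_adj_same hva) (bigGraph_adj_same hvb)
    (bigGraph_adj_same hvc) (bigGraph_adj_same hvd) (bigGraph_adj_same hac)
    (bigGraph_adj_same hcb) (bigGraph_adj_same hbd) (bigGraph_adj_same hda) ?_ ?_)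
  · rintro rfl; exact hab rfl
  · rintro rfl; exact hcd rfl

lemma hom_bigGraph {n : ℕ} (hn : n < 40001) (F : SimpleGraph (Fin n)) (hF : wheelFour.Free F) :
    Nonempty (F →g bigGraph) :=
  ⟨⟨fun x => ⟨⟨⟨n, hn⟩, ⟨F, hF⟩⟩, x⟩, fun h => ⟨rfl, h⟩⟩⟩

lemma k4_free : wheelFour.Free (⊤ : SimpleGraph (Fin 4)) := by
  rintro ⟨f⟩
  have := Fintype.card_le_of_injective _ f.injective
  simp at this

noncomputable instance : Fintype BigV := Fintype.ofFinite _

lemma homThreshold_le : homThreshold wheelFour ≤ 49 / 100 := by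
  unfold homThreshold
  apply csInf_le
  · exact ⟨0, fun α hα => hα.1⟩
  refine ⟨by norm_num, BigV, inferInstance, bigGraph, bigGraph_free, ?_⟩
  intro V _ G hG hdeg
  by_cases hn : Fintype.card V < 40001
  · -- small graphs
    let e := Fintype.equivFin V
    have hfree : wheelFour.Free (G.map e.toEmbedding) := by
      have : G ≃g G.map e.toEmbedding := SimpleGraph.Iso.map e G
      exact (SimpleGraph.free_congr_right this).mp hG
    obtain ⟨f⟩ := hom_bigGraph hn _ hfree
    exact ⟨f.comp (SimpleGraph.Iso.map e G).toHom⟩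
  · push Not at hn
    have hcol : G.Colorable 4 := by
      apply four_colorable hG hn
      intro v
      unfold MinDegreeGE at hdeg
      have h1 : G.minDegree ≤ G.degree v := G.minDegree_le_degree v
      have h2 : (G.minDegree : ℝ) ≤ ((G.neighborFinset v).card : ℝ) := by
        rw [SimpleGraph.card_neighborFinset_eq_degree]; exact_mod_cast h1
      have h3 : (49 * Fintype.card V : ℝ) ≤ 100 * ((G.neighborFinset v).card : ℝ) := by linarith
      exact_mod_cast h3
    obtain ⟨C⟩ := hcol
    obtain ⟨f⟩ := hom_bigGraph (by norm_num : 4 < 40001) _ k4_free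
    exact ⟨f.comp C⟩

theorem homThreshold_lt_blowupThreshold :
    homThreshold wheelFour < blowupThreshold wheelFour :=
  lt_of_le_of_lt homThreshold_le (lt_of_lt_of_le (by norm_num) half_le_blowupThreshold)

end Pool.Agent.Helper93Blowup
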